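import Mathlib

/-! RT-4: a combinatorial function. -/

set_option autoImplicit false

namespace Pool.Agent.W74.RT

/-- triangular numbers -/
def T : ℕ → ℕ
  | 0 => 0
  | n + 1 => T n + (n + 1)

lemma T_succ (n : ℕ) : T (n + 1) = T n + (n + 1) := rfl

lemma T_mono : StrictMono T := strictMono_nat_of_lt_succ (fun n => by rw [T_succ]; omega)

lemma le_T (n : ℕ) : n ≤ T n := T_mono.id_le n

lemma T_ex (q : ℕ) : ∃ m i, i ≤ m ∧ q = T m + i := by
  induction q with
  | zero => exact ⟨0, 0, le_refl _, rfl⟩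
  | succ q ih =>
    obtain ⟨m, i, hi, rfl⟩ := ih
    rcases hi.lt_or_eq with h | h
    · exact ⟨m, i + 1, h, rfl⟩
    · exact ⟨m + 1, 0, Nat.zero_le _, by rw [T_succ]; omega⟩

lemma T_uniq {m i m' i' : ℕ} (hi : i ≤ m) (hi' : i' ≤ m') (h : T m + i = T m' + i') :
    m = m' ∧ i = i' := by
  have key : ∀ {m i m' i' : ℕ}, i ≤ m → i' ≤ m' → T m + i = T m' + i' → ¬ m < m' := by
    intro m i m' i' hi hi' h hlt
    have h1 : T (m + 1) ≤ T m' := T_mono.monotone hlt
    rw [T_succ] at h1
    omega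
  have h1 := key hi hi' h
  have h2 := key hi' hi h.symm
  have h3 : m = m' := by omega
  subst h3
  exact ⟨rfl, by omega⟩

theorem exists_l : ∃ l : ℕ → ℕ, (∀ q, l q ≤ q) ∧
    (∀ L, ∃ L', ∀ q, L' ≤ l q → (∀ q', l q' ≠ q + 1) ∧ L ≤ l (q + 1)) ∧
    (∀ L N, ∃ q, N ≤ q ∧ L ≤ l q) := by
  choose m i hi hq using T_ex
  have hlq : ∀ M I, I ≤ M → T (m (T M + I) - i (T M + I)) = T (M - I) := by
    intro M I hI
    obtain ⟨h1, h2⟩ := T_uniq (hi (T M + I)) hI (hq (T M + I)).symm
    rw [h1, h2]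
  refine ⟨fun q => T (m q - i q), ?_, ?_, ?_⟩
  · intro q
    have h1 : T (m q - i q) ≤ T (m q) := T_mono.monotone (Nat.sub_le _ _)
    have h2 := hq q
    show T (m q - i q) ≤ q
    omega
  · intro L
    refine ⟨T (L + 1), ?_⟩
    intro q hL
    have h1 : L + 1 ≤ m q - i q := T_mono.le_iff_le.1 hL
    have h2 := hi q
    have h3 : q + 1 = T (m q) + (i q + 1) := by have := hq q; omega
    constructor
    · intro q' hq'
      have h4 : T (m q' - i q') + 0 = T (m q) + (i q + 1) := by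
        rw [add_zero, ← h3]; exact hq'
      have := (T_uniq (Nat.zero_le _) (by omega) h4).2
      omega
    · show L ≤ T (m (q + 1) - i (q + 1))
      rw [h3, hlq (m q) (i q + 1) (by omega)]
      exact le_trans (by omega) (le_T _)
  · intro L N
    refine ⟨T (max L N), ?_, ?_⟩
    · exact (le_max_right L N).trans (le_T _)
    · show L ≤ T (m (T (max L N)) - i (T (max L N)))
      have h := hlq (max L N) 0 (Nat.zero_le _)
      rw [add_zero, Nat.sub_zero] at h
      rw [h]
      exact (le_max_left L N).trans (le_T _)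

end Pool.Agent.W74.RT

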