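import Pool.Agent.W74.RT.RT5
import Pool.Agent.W347.RT.PolyCompact

set_option autoImplicit false

namespace Pool.Agent.W74.RT
open Pool.Agent.W685.RT

/-- RT-5: the parameters exist. -/
theorem exists_par : Nonempty Pool.Agent.W685.RT.Par :=
  exists_par_of (fun m0 h m hm Y η ε Λ hη hε =>
    Pool.Agent.W347.RT.poly_compact m0 h m hm Y η ε Λ hη hε)

end Pool.Agent.W74.RT
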