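import Pool.Agent.W74.RT.RT4
import Pool.Agent.W685.RT.Defs

/-! RT-5: existence of the parameters. -/

set_option autoImplicit false

namespace Pool.Agent.W74.RT
open Pool.Agent.W685.RT Finset

/-- statement of RT-3 -/
def S_poly : Prop := ∀ (m0 h m : ℕ) (_hm : m0 + h ≤ m) (Y η ε : ℝ) (Λ : ℂ) (_hη : 0 < η)
    (_hε : 0 < ε), ∃ P : ℝ, 0 ≤ P ∧ ∀ y : ℕ → ℂ,
      ∑ k ∈ Finset.range (m + 1), ‖y k‖ ≤ Y → η ≤ ∑ k ∈ Finset.range (m0 + 1), ‖y k‖ →
      ∃ p : ℕ → ℂ, (∀ s, s < h → p s = 0) ∧ ∑ s ∈ Finset.range (m + 1), ‖p s‖ ≤ P ∧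
        ∑ n ∈ Finset.range (m + 1), ‖∑ s ∈ Finset.range (n + 1), p s * y (n - s) -
          (if n = m0 + h then Λ else 0)‖ ≤ ε

/-- the sequence `v` -/
def vv (l : ℕ → ℕ) (hl : ∀ q, l q ≤ q) : ℕ → ℕ
  | 0 => 0
  | q + 1 => 2 * (3 * vv l hl q + 1 + vv l hl (l q))
termination_by q => q
decreasing_by
  · exact Nat.lt_succ_self q
  · exact Nat.lt_succ_of_le (hl q)

lemma W_ge_one (m : ℕ) : 1 ≤ W m := by
  unfold W
  exact one_le_pow₀ (by norm_num)

lemma Bd_ge_one (v : ℕ → ℕ) (q : ℕ) {x : ℝ} (hx : 1 ≤ x) : 1 ≤ Bd v q x := by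
  unfold Bd
  have h1 : (1:ℝ) ≤ (q:ℝ) + 2 := by have := (Nat.cast_nonneg q : (0:ℝ) ≤ q); linarith
  have h2 := W_ge_one (v (q + 1))
  have h3 : 1 ≤ x ^ (2 * v (q + 1) + 1) := one_le_pow₀ hx
  have h4 : 1 ≤ ((q:ℝ) + 2) * W (v (q + 1)) := one_le_mul_of_one_le_of_one_le h1 h2
  exact one_le_mul_of_one_le_of_one_le h4 h3

lemma le_bg (v : ℕ → ℕ) (q : ℕ) {x : ℝ} (hx : 1 ≤ x) : x ≤ bg v q x := by
  unfold bg
  have h0 : (0:ℝ) ≤ (q:ℝ) := Nat.cast_nonneg q
  have h1 : (1:ℝ) ≤ 2 * ((q:ℝ) + 1) := by linarith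
  have h2 := W_ge_one (v (q + 1))
  have h3 : x ≤ x ^ 2 := by nlinarith
  have h4 := Bd_ge_one v q hx
  have h5 : 1 ≤ 2 * ((q:ℝ) + 1) * W (v (q + 1)) := one_le_mul_of_one_le_of_one_le h1 h2
  calc x ≤ x ^ 2 := h3
    _ = 1 * x ^ 2 * 1 := by ring
    _ ≤ 2 * ((q:ℝ) + 1) * W (v (q + 1)) * x ^ 2 * Bd v q x := by gcongr

theorem exists_par_of (h3 : S_poly) : Nonempty Par := by
  classical
  obtain ⟨l, hl, hG1, hG2⟩ := exists_l
  set v : ℕ → ℕ := vv l hl with hv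
  have hv0 : v 0 = 0 := by rw [hv, vv]
  have hvs : ∀ q, v (q + 1) = 2 * mm v l q := by
    intro q
    rw [hv, vv]
    rfl
  have hPP : ∀ (q : ℕ) (x : ℝ), ∃ P : ℝ, 0 ≤ P ∧ (1 ≤ x → ∀ y : ℕ → ℂ,
      ∑ k ∈ range (mm v l q + 1), ‖y k‖ ≤ 2 * Bd v q x →
      1 / (2 ^ q * (v q + 1) * Bd v q x) ≤ ∑ k ∈ range (v q + 1), ‖y k‖ →
      ∃ p : ℕ → ℂ, (∀ s, s < hh v q → p s = 0) ∧
        ∑ s ∈ range (mm v l q + 1), ‖p s‖ ≤ P ∧
        ∑ n ∈ range (mm v l q + 1), ‖∑ s ∈ range (n + 1), p s * y (n - s)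
          - (if n = aa v q then ((x : ℝ) : ℂ) else 0)‖ ≤ 1 / (q + 1)) := by
    intro q x
    by_cases hx : 1 ≤ x
    · have hB := Bd_ge_one v q hx
      obtain ⟨P, hP0, hP⟩ := h3 (v q) (hh v q) (mm v l q) (by unfold hh mm; omega)
        (2 * Bd v q x) (1 / (2 ^ q * (v q + 1) * Bd v q x)) (1 / ((q:ℝ) + 1)) (x : ℂ)
        (by positivity) (by positivity)
      refine ⟨P, hP0, fun _ y h1 h2 => ?_⟩
      obtain ⟨p, hp1, hp2, hp3⟩ := hP y h1 h2
      refine ⟨p, hp1, hp2, ?_⟩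
      have : v q + hh v q = aa v q := by unfold hh aa; omega
      rw [this] at hp3
      exact hp3
    · exact ⟨0, le_refl _, fun h => absurd h hx⟩
  choose PP hPP0 hPPs using hPP
  -- the recursion
  let lamF : ℕ → ℝ → ℝ := fun q d => bg v q d
  let MF : ℕ → ℝ → ℝ := fun q d => bg v q (lamF q d) + PP q (lamF q d)
  let rhoF : ℕ → ℝ → ℝ := fun q d => bg v q (MF q d)
  let D : ℕ → ℝ := fun n => Nat.rec (motive := fun _ => ℝ) 2 (fun q d => bg v q (rhoF q d)) n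
  have hD0 : D 0 = 2 := rfl
  have hDs : ∀ q, D (q + 1) = bg v q (rhoF q (D q)) := fun q => rfl
  have hlam : ∀ q d, 2 ≤ d → 2 ≤ lamF q d := fun q d hd =>
    hd.trans (le_bg v q (by linarith))
  have hM : ∀ q d, 2 ≤ d → 2 ≤ MF q d := by
    intro q d hd
    have h1 := hlam q d hd
    have h2 := le_bg v q (x := lamF q d) (by linarith)
    have h3 := hPP0 q (lamF q d)
    show 2 ≤ bg v q (lamF q d) + PP q (lamF q d)
    linarith
  have hrho : ∀ q d, 2 ≤ d → 2 ≤ rhoF q d := fun q d hd =>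
    (hM q d hd).trans (le_bg v q (by have := hM q d hd; linarith))
  have hD : ∀ q, 2 ≤ D q := by
    intro q
    induction q with
    | zero => exact hD0.ge
    | succ q ih =>
      rw [hDs]
      exact (hrho q _ ih).trans (le_bg v q (by have := hrho q _ ih; linarith))
  refine ⟨{ l := l, v := v, D := D, lam := fun q => lamF q (D q), M := fun q => MF q (D q),
            rho := fun q => rhoF q (D q), P := fun q => PP q (lamF q (D q)),
            l_le := hl, v_zero := hv0, v_succ := hvs, G1 := hG1, G2 := hG2, D_ge := hD,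
            lam_ge := fun q => le_refl _,
            M_ge := fun q => le_add_of_nonneg_right (hPP0 q _),
            rho_ge := fun q => le_refl _,
            D_succ_ge := fun q => (hDs q).ge,
            P_nonneg := fun q => hPP0 q _,
            P_le := fun q => ?_,
            P_spec := fun q => hPPs q (lamF q (D q)) (by have := hlam q _ (hD q); linarith) }⟩
  have h1 := hlam q _ (hD q)
  have h2 := le_bg v q (x := lamF q (D q)) (by linarith)
  show PP q (lamF q (D q)) ≤ bg v q (lamF q (D q)) + PP q (lamF q (D q))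
  linarith

end Pool.Agent.W74.RT

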